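import Pool.Agent.helper64.NQ.Spec

set_option autoImplicit false

namespace Pool.Agent.NQ

open Pool.Agent.helper58.DC Pool.Agent.DI Pool.Agent.DR

theorem TOT (hJTP : JTP_stmt) (hJRR : JRR_stmt) (hTRF : TRF_stmt) (hATR : ATR_stmt) :
    TOT_stmt := by
  classical
  intro Q _ _ hc n hsq hB ω hω
  obtain ⟨-, hcard, -⟩ := hTRF Q hc n hsq hB
  obtain ⟨hA1, hA2⟩ := hATR Q hc n hsq hB ω hω
  have hJ : ∀ r ∈ n.primeFactors, JQ (tor Q hc r) ω =
      if (∀ y ∈ tor Q hc r, ∀ z ∈ tor Q hc r, ω y z = 1) then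
        ((r : ℂ) ^ 2 - 1) * ((r : ℂ) ^ 2 - r) else -((r : ℂ) ^ 3 - r) := by
    intro r hr
    have hrp := Nat.prime_of_mem_primeFactors hr
    have hrn := Nat.dvd_of_mem_primeFactors hr
    have h1 := hJRR Q hc r hrp (tor Q hc r) (hcard r hrn) (fun x hx => hx) ω
      ⟨fun x _ y _ z _ => hω.mul_left x (Subgroup.mem_top x) y (Subgroup.mem_top y) z
          (Subgroup.mem_top z),
        fun x _ y _ z _ => hω.mul_right x (Subgroup.mem_top x) y (Subgroup.mem_top y) z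
          (Subgroup.mem_top z),
        fun x _ => hω.self x (Subgroup.mem_top x)⟩
    rw [h1]
  have key : ∀ c : ℕ → ℂ, ∑ S ∈ n.primeFactors.powerset, JQ (tor Q hc (∏ r ∈ S, r)) ω *
      ∏ r ∈ n.primeFactors \ S, c r = ∏ r ∈ n.primeFactors, (JQ (tor Q hc r) ω + c r) := by
    intro c
    rw [Finset.prod_add]
    refine Finset.sum_congr rfl fun S hS => ?_
    rw [hJTP Q hc n hsq hB ω hω S (Finset.mem_powerset.1 hS)]
  constructor
  · rw [key (fun r => (r : ℂ) ^ 3 - r)]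
    have h2 : ∀ r ∈ n.primeFactors, JQ (tor Q hc r) ω + ((r : ℂ) ^ 3 - r) =
        if (∀ y ∈ tor Q hc r, ∀ z ∈ tor Q hc r, ω y z = 1) then (r : ℂ) ^ 4 - (r : ℂ) ^ 2
          else 0 := by
      intro r hr
      rw [hJ r hr]
      split_ifs
      · ring
      · ring
    rw [Finset.prod_congr rfl h2, Finset.prod_ite_zero]
    by_cases h : ∀ y z, ω y z = 1
    · rw [if_pos (hA1.1 h), if_pos h]
    · rw [if_neg (fun h' => h (hA1.2 h')), if_neg h]
  · rw [key (fun r => -(((r : ℂ) ^ 2 - 1) * ((r : ℂ) ^ 2 - r)))]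
    have h2 : ∀ r ∈ n.primeFactors, JQ (tor Q hc r) ω + -(((r : ℂ) ^ 2 - 1) * ((r : ℂ) ^ 2 - r)) =
        if (¬ ∀ y ∈ tor Q hc r, ∀ z ∈ tor Q hc r, ω y z = 1) then -((r : ℂ) ^ 4 - (r : ℂ) ^ 2)
          else 0 := by
      intro r hr
      rw [hJ r hr]
      by_cases h : ∀ y ∈ tor Q hc r, ∀ z ∈ tor Q hc r, ω y z = 1
      · rw [if_pos h, if_neg (not_not.2 h)]
        ring
      · rw [if_neg h, if_pos h]
        ring
    rw [Finset.prod_congr rfl h2, Finset.prod_ite_zero]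
    by_cases h : ∀ z, (∀ y, ω y z = 1) → z = 1
    · rw [if_pos (hA2.1 h), if_pos h]
    · rw [if_neg (fun h' => h (hA2.2 h')), if_neg h]

end Pool.Agent.NQ
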